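import Pool.Agent.CYE.StmtsF

/-! # Squad CYE, row UNC: cardinalities -/

set_option autoImplicit false

namespace Pool.Agent.CYE.H31

variable {ι : Type} [Fintype ι] [DecidableEq ι] {q : ι → ℕ} [∀ i, Fact (q i).Prime]

omit [∀ i, Fact (q i).Prime] in
theorem tot (hp : ∀ i, (q i).Prime) (hinj : Function.Injective q) (s : Finset ι) :
    (∏ i ∈ s, q i).totient = ∏ i ∈ s, (q i - 1) := by
  induction s using Finset.induction_on with
  | empty => simp
  | insert a s ha ih =>
    rw [Finset.prod_insert ha, Finset.prod_insert ha, Nat.totient_mul, ih,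
      Nat.totient_prime (hp a)]
    refine Nat.Coprime.prod_right fun i hi => ?_
    rw [Nat.coprime_primes (hp a) (hp i)]
    intro h
    exact ha (by rw [hinj h]; exact hi)

omit [∀ i, Fact (q i).Prime] in
theorem cnt (A : ∀ i, Finset (ZMod (q i))) (i : ι) (c : ZMod (q i)) :
    ((Fintype.piFinset A).filter fun b => b i = c).card * (A i).card ≤
      (Fintype.piFinset A).card := by
  have h0 := Fintype.card_filter_piFinset_eq A i c
  rw [h0, Fintype.card_piFinset]
  split_ifs
  · rw [Finset.prod_erase_mul _ _ (Finset.mem_univ i)]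
  · rw [zero_mul]
    exact Nat.zero_le _

omit [∀ i, Fact (q i).Prime] in
theorem gen (A : ∀ i, Finset (ZMod (q i))) {lg : List ι} (hnd : lg.Nodup)
    (hA : ∀ i ∈ lg, (A i).card = q i - 1) (hq : ∀ i, 3 ≤ q i) (c : Pt q) (S : Finset (Pt q))
    (hS : ∀ b ∈ S, b ∈ Fintype.piFinset A ∧ ∃ i ∈ lg, b i = c i) :
    (S.card : ℝ) ≤ (lg.map fun i => (1 : ℝ) / (q i - 1)).sum * (Fintype.piFinset A).card := by
  have h1 : S ⊆ lg.toFinset.biUnion fun i => (Fintype.piFinset A).filter fun b => b i = c i := by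
    intro b hb
    obtain ⟨h2, i, hi, h3⟩ := hS b hb
    rw [Finset.mem_biUnion]
    exact ⟨i, List.mem_toFinset.2 hi, Finset.mem_filter.2 ⟨h2, h3⟩⟩
  have h2 : (S.card : ℝ) ≤
      ∑ i ∈ lg.toFinset, (((Fintype.piFinset A).filter fun b => b i = c i).card : ℝ) := by
    exact_mod_cast (Finset.card_le_card h1).trans Finset.card_biUnion_le
  refine h2.trans ?_
  rw [← List.sum_toFinset _ hnd, Finset.sum_mul]
  refine Finset.sum_le_sum fun i hi => ?_
  have h3 := cnt A i (c i)
  rw [hA i (List.mem_toFinset.1 hi)] at h3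
  have h4 : (1 : ℝ) ≤ (q i : ℝ) - 1 := by
    have : (3 : ℝ) ≤ q i := by exact_mod_cast hq i
    linarith
  have h5 : ((q i - 1 : ℕ) : ℝ) = (q i : ℝ) - 1 := by
    have := hq i
    rw [Nat.cast_sub (by omega), Nat.cast_one]
  have h6 : (((Fintype.piFinset A).filter fun b => b i = c i).card : ℝ) * ((q i : ℝ) - 1) ≤
      (Fintype.piFinset A).card := by
    rw [← h5]
    exact_mod_cast h3
  rw [div_mul_eq_mul_div, one_mul, le_div_iff₀ (by linarith)]
  exact h6

/-- the nonzero elements -/
def nz (q : ι → ℕ) [∀ i, Fact (q i).Prime] (i : ι) : Finset (ZMod (q i)) :=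
  Finset.univ.filter fun x => x ≠ 0

omit [Fintype ι] [DecidableEq ι] in
theorem nz_card (i : ι) : (nz q i).card = q i - 1 := by
  have h : nz q i = Finset.univ.erase (0 : ZMod (q i)) := by
    ext x
    simp [nz]
  rw [h, Finset.card_erase_of_mem (Finset.mem_univ _), Finset.card_univ, ZMod.card]

theorem un_eq : Un q = Fintype.piFinset (nz q) := by
  ext b
  simp [Un, nz, Fintype.mem_piFinset]

theorem sv_eq (lg : List ι) :
    Sv q lg = Fintype.piFinset fun i => if i ∈ lg then nz q i else {0} := by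
  ext b
  simp only [Sv, Finset.mem_filter, Finset.mem_univ, true_and, Fintype.mem_piFinset]
  refine forall_congr' fun i => ?_
  by_cases h : i ∈ lg
  · simp [h, nz]
  · simp [h]

theorem unc : UncStmt := by
  intro ι _ _ q _ hinj hq lg hnd
  have hp : ∀ i, (q i).Prime := fun i => Fact.out
  have hU : (Un q).card = (∏ i, q i).totient := by
    rw [un_eq, Fintype.card_piFinset, tot hp hinj]
    exact Finset.prod_congr rfl fun i _ => nz_card i
  refine ⟨hU, ?_, ?_, ?_, ?_⟩
  · refine ⟨fun _ => 1, ?_⟩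
    simp only [Un, Finset.mem_filter, Finset.mem_univ, true_and]
    exact fun i => one_ne_zero
  · refine ⟨fun i => if i ∈ lg then 1 else 0, ?_⟩
    simp only [Sv, Finset.mem_filter, Finset.mem_univ, true_and]
    intro i
    constructor
    · intro h
      rw [if_pos h]
      exact one_ne_zero
    · intro h
      rw [if_neg h]
  · intro s _ S hS
    rw [un_eq]
    refine gen (nz q) hnd (fun i _ => nz_card i) hq (fun i => -s i) S fun b hb => ?_
    obtain ⟨h1, i, hi, h2⟩ := hS b hb
    rw [un_eq] at h1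
    exact ⟨h1, i, hi, eq_neg_of_add_eq_zero_left h2⟩
  · intro b _ S hS
    rw [sv_eq]
    refine gen _ hnd (fun i hi => ?_) hq (fun i => -b i) S fun s hs => ?_
    · show (if i ∈ lg then nz q i else {0}).card = q i - 1
      rw [if_pos hi, nz_card]
    · obtain ⟨h1, i, hi, h2⟩ := hS s hs
      rw [sv_eq] at h1
      exact ⟨h1, i, hi, eq_neg_of_add_eq_zero_right h2⟩

end Pool.Agent.CYE.H31
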